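import Pool.Agent.Helper4.S7.StD2

/-!
# Project W7, module UBE: transport of the words back to the group with lower left entry divisible by a power of seven
-/

set_option autoImplicit false

namespace Pool.Agent.Helper99.S7

open Pool.Agent.Helper4.S7
open Pool.Agent.Helper84.S7
open Pool.Agent.Helper14.CV (Homog EqC act Tl)
open Pool.Agent.Helper28.WK (SymP Tw evw Ok)

lemma ube_add (r : ℕ) (G H : ℤ → ℤ → ℤ) : ub r (G + H) = ub r G + ub r H := by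
  funext p q
  simp only [ub, Pi.add_apply, Int.cast_add]

lemma ube_sub (r : ℕ) (G H : ℤ → ℤ → ℤ) : ub r (G - H) = ub r G - ub r H := by
  funext p q
  simp only [ub, Pi.sub_apply, Int.cast_sub]

lemma ube_smul (r : ℕ) (n : ℤ) (G : ℤ → ℤ → ℤ) : ub r (n • G) = n • ub r G := by
  funext p q
  simp only [ub, Pi.smul_apply, zsmul_eq_mul, smul_eq_mul, Int.cast_mul]

lemma ube_Uo (h : S7Unb) (r : ℕ) (G : ℤ → ℤ → ℤ) : Uo7 1 (ub r G) = ub r (Uo7 (7 ^ r) G) := by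
  have hT : ∀ (l : ℕ) (H : ℤ → ℤ → ℤ), Tl l 1 (ub r H) = ub r (Tl l (7 ^ r) H) := fun l H => (h r H).1 l
  unfold Uo7
  simp only [ube_add, ube_sub, ube_smul, hT]

lemma ube_Zo (h : S7Unb) (r : ℕ) (G : ℤ → ℤ → ℤ) : Zo7 1 (ub r G) = ub r (Zo7 (7 ^ r) G) := by
  have hT : ∀ (l : ℕ) (H : ℤ → ℤ → ℤ), Tl l 1 (ub r H) = ub r (Tl l (7 ^ r) H) := fun l H => (h r H).1 l
  unfold Zo7
  simp only [ube_add, ube_smul, hT]

lemma ube_Vo (h : S7Unb) (r : ℕ) (G : ℤ → ℤ → ℤ) : Vo7 1 (ub r G) = ub r (Vo7 (7 ^ r) G) := by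
  unfold Vo7
  rw [ube_Zo h, (h r _).1]

lemma ube_V8 (h : S7Unb) (r : ℕ) (G : ℤ → ℤ → ℤ) : V8o 1 (ub r G) = ub r (V8o (7 ^ r) G) := by
  have hT : ∀ (l : ℕ) (H : ℤ → ℤ → ℤ), Tl l 1 (ub r H) = ub r (Tl l (7 ^ r) H) := fun l H => (h r H).1 l
  unfold V8o
  simp only [hT, ← ube_add, ← ube_sub, ← ube_smul]

lemma ube_O5 (h : S7Unb) (r : ℕ) (G : ℤ → ℤ → ℤ) : O5o 1 (ub r G) = ub r (O5o (7 ^ r) G) := by
  have hT : ∀ (l : ℕ) (H : ℤ → ℤ → ℤ), Tl l 1 (ub r H) = ub r (Tl l (7 ^ r) H) := fun l H => (h r H).1 l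
  unfold O5o
  simp only [hT, ← ube_add, ← ube_smul]

lemma ube_iter {O : (ℤ → ℤ → ℂ) → (ℤ → ℤ → ℂ)} {P : (ℤ → ℤ → ℤ) → (ℤ → ℤ → ℤ)} (r : ℕ)
    (h : ∀ G, O (ub r G) = ub r (P G)) (G : ℤ → ℤ → ℤ) (i : ℕ) :
    O^[i] (ub r G) = ub r (P^[i] G) := by
  induction i with
  | zero => rfl
  | succ i ih => rw [Function.iterate_succ_apply', Function.iterate_succ_apply', ih, h]

lemma ube_wd (h : S7Unb) (r : ℕ) (G : ℤ → ℤ → ℤ) (c i j : ℕ) :
    wd7 1 (ub r G) c i j = ub r (wd7 (7 ^ r) G c i j) := by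
  unfold wd7
  split_ifs
  · rw [ube_iter r (ube_V8 h r), ube_iter r (ube_Uo h r)]
  · rw [ube_iter r (ube_Vo h r), ube_iter r (ube_Uo h r), ube_Zo h]
  · rw [ube_iter r (ube_Vo h r), ube_iter r (ube_Uo h r), ube_Zo h]
  · rw [ube_iter r (ube_V8 h r), ube_iter r (ube_Uo h r), ube_O5 h]

lemma ube_hTl {G : ℤ → ℤ → ℤ} (l : ℕ) (hl : 0 < l) (m : ℤ) (h : Homog G) :
    Homog (Tl l m G) := by
  intro k p q hk hpq
  have hl0 : (l : ℤ) ≠ 0 := by exact_mod_cast hl.ne'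
  simp only [Tl]
  congr 1
  · have e := h k (l * p) q hk (by
      rcases hpq with h0 | h0
      · exact Or.inl (mul_ne_zero hl0 h0)
      · exact Or.inr h0)
    rw [← e]
    congr 1
    ring
  · refine Finset.sum_congr rfl ?_
    intro j _
    have e := h k (p + m * j * q) (l * q) hk (by
      by_cases hq : q = 0
      · left
        rcases hpq with h0 | h0
        · rw [hq, mul_zero, add_zero]
          exact h0
        · exact absurd hq h0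
      · exact Or.inr (mul_ne_zero hl0 hq))
    rw [← e]
    congr 1
    · ring
    · ring

lemma ube_hadd {G H : ℤ → ℤ → ℤ} (hG : Homog G) (hH : Homog H) : Homog (G + H) := by
  intro k p q hk hpq
  simp only [Pi.add_apply]
  rw [hG k p q hk hpq, hH k p q hk hpq]

lemma ube_hsub {G H : ℤ → ℤ → ℤ} (hG : Homog G) (hH : Homog H) : Homog (G - H) := by
  intro k p q hk hpq
  simp only [Pi.sub_apply]
  rw [hG k p q hk hpq, hH k p q hk hpq]

lemma ube_hsmul {G : ℤ → ℤ → ℤ} (n : ℤ) (hG : Homog G) : Homog (n • G) := by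
  intro k p q hk hpq
  simp only [Pi.smul_apply]
  rw [hG k p q hk hpq]

lemma ube_hUo {G : ℤ → ℤ → ℤ} (m : ℤ) (h : Homog G) : Homog (Uo7 m G) := by
  have h1 := ube_hTl 2 (by norm_num) m h
  have h2 := ube_hTl 2 (by norm_num) m h1
  exact ube_hadd (ube_hsub h2 (ube_hsmul 4 h1)) (ube_hsmul 3 h)

lemma ube_hZo {G : ℤ → ℤ → ℤ} (m : ℤ) (h : Homog G) : Homog (Zo7 m G) := by
  have h1 := ube_hTl 2 (by norm_num) m h
  have h2 := ube_hTl 2 (by norm_num) m h1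
  exact ube_hadd (ube_hadd h2 h1) (ube_hsmul 2 h)

lemma ube_hVo {G : ℤ → ℤ → ℤ} (m : ℤ) (h : Homog G) : Homog (Vo7 m G) :=
  ube_hTl 3 (by norm_num) m (ube_hZo m h)

lemma ube_hV8 {G : ℤ → ℤ → ℤ} (m : ℤ) (h : Homog G) : Homog (V8o m G) := by
  have h2 := ube_hTl 2 (by norm_num) m h
  have h22 := ube_hTl 2 (by norm_num) m h2
  have h3 := ube_hTl 3 (by norm_num) m h
  have h33 := ube_hTl 3 (by norm_num) m h3
  exact ube_hadd
    (ube_hTl 3 (by norm_num) m (ube_hsub (ube_hsub (ube_hadd (ube_hsmul 3 h) (ube_hsmul 2 h2)) h22) h33))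
    (ube_hTl 5 (by norm_num) m (ube_hadd h22 (ube_hsmul 4 h)))

lemma ube_hO5 {G : ℤ → ℤ → ℤ} (m : ℤ) (h : Homog G) : Homog (O5o m G) := by
  have h2 := ube_hTl 2 (by norm_num) m h
  have h22 := ube_hTl 2 (by norm_num) m h2
  have h32 := ube_hTl 3 (by norm_num) m h2
  have h3 := ube_hTl 3 (by norm_num) m h
  exact ube_hadd (ube_hadd (ube_hadd (ube_hadd h32 (ube_hsmul 2 h22)) (ube_hsmul 3 h2)) (ube_hsmul 2 h3))
    (ube_hsmul 2 h)

lemma ube_hiter {P : (ℤ → ℤ → ℤ) → (ℤ → ℤ → ℤ)} (hP : ∀ G, Homog G → Homog (P G))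
    {G : ℤ → ℤ → ℤ} (h : Homog G) (i : ℕ) : Homog (P^[i] G) := by
  induction i with
  | zero => exact h
  | succ i ih =>
    rw [Function.iterate_succ_apply']
    exact hP _ ih

lemma ube_hwd {G : ℤ → ℤ → ℤ} (m : ℤ) (h : Homog G) (c i j : ℕ) : Homog (wd7 m G c i j) := by
  have hU : ∀ G : ℤ → ℤ → ℤ, Homog G → Homog (Uo7 m G) := fun G h => ube_hUo m h
  have hV : ∀ G : ℤ → ℤ → ℤ, Homog G → Homog (Vo7 m G) := fun G h => ube_hVo m h
  have hE : ∀ G : ℤ → ℤ → ℤ, Homog G → Homog (V8o m G) := fun G h => ube_hV8 m h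
  unfold wd7
  split_ifs
  · exact ube_hiter hU (ube_hiter hE h j) i
  · exact ube_hZo m (ube_hiter hU (ube_hiter hV h _) i)
  · exact ube_hZo m (ube_hiter hU (ube_hiter hV h _) i)
  · exact ube_hO5 m (ube_hiter hU (ube_hiter hE h j) i)

/-- **Module UBE.** -/
theorem hUbe (h : S7Unb) : S7Ube := by
  intro r s G hG
  refine ⟨((h r G).2 s hG).1, ?_⟩
  intro c i j
  change ev7 1 (ub r G) c i j = _
  unfold ev7
  rw [ube_wd h]
  have hH : Homog (wd7 (7 ^ r) G c i j) := ube_hwd _ hG.1 c i j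
  have e := hH (7 ^ r) 1 0 (by positivity) (Or.inl one_ne_zero)
  rw [mul_zero] at e
  simp only [ub]
  rw [mul_zero, e, Int.cast_sub]

end Pool.Agent.Helper99.S7
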